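import Mathlib

set_option autoImplicit false

/-!
# Unions of cosets in the symmetric group and complements of two crossing cosets

Counting lemmas for the permutations of `Fin (t + 3)`.
-/

namespace Pool.Agent.Q250.SnStab

open Finset Equiv

/-- The number of permutations with prescribed values at `k` points is `(n - k)!`. -/
lemma card_pres (n k : ℕ) (x y : Fin k → Fin n) (hx : Function.Injective x)
    (hy : Function.Injective y) :
    (univ.filter (fun σ : Perm (Fin n) => ∀ l, σ (x l) = y l)).card = (n - k).factorial := by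
  classical
  obtain ⟨g, hg⟩ := Equiv.Perm.exists_extending_pair y x hy hx
  have h1 : (univ.filter (fun σ : Perm (Fin n) => ∀ l, σ (x l) = y l)).card =
      (univ.filter (fun σ : Perm (Fin n) => ∀ l, σ (x l) = x l)).card := by
    apply Finset.card_bij' (fun σ _ => g * σ) (fun σ _ => g⁻¹ * σ)
    · intro σ hσ
      simp only [mem_filter, mem_univ, true_and] at hσ ⊢
      intro l
      rw [Perm.mul_apply, hσ l, hg l]
    · intro σ hσ
      simp only [mem_filter, mem_univ, true_and] at hσ ⊢
      intro l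
      rw [Perm.mul_apply, hσ l, ← hg l]
      simp
    · intro σ _
      simp
    · intro σ _
      simp
  rw [h1]
  have h2 : (univ.filter (fun σ : Perm (Fin n) => ∀ l, σ (x l) = x l)).card =
      Fintype.card {σ : Perm (Fin n) // ∀ a, ¬ (a ∉ Set.range x) → σ a = a} := by
    rw [Fintype.card_subtype]
    congr 1
    ext σ
    simp only [mem_filter, mem_univ, true_and, not_not, Set.mem_range]
    constructor
    · rintro h a ⟨l, rfl⟩
      exact h l
    · intro h l
      exact h _ ⟨l, rfl⟩
  rw [h2, ← Fintype.card_congr (Perm.subtypeEquivSubtypePerm (fun a => a ∉ Set.range x)),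
    Fintype.card_perm]
  congr 1
  have h3 := Fintype.card_subtype_compl (fun a : Fin n => a ∈ Set.range x)
  rw [Fintype.card_fin] at h3
  rw [h3]
  congr 1
  have h4 := Set.card_range_of_injective hx
  rw [Fintype.card_fin] at h4
  convert h4

lemma card_one {n : ℕ} (i j : Fin n) :
    (univ.filter (fun σ : Perm (Fin n) => σ i = j)).card = (n - 1).factorial := by
  have h := card_pres n 1 ![i] ![j] (Function.injective_of_subsingleton _)
    (Function.injective_of_subsingleton _)
  rw [← h]
  congr 1
  ext σ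
  simp

lemma card_two {n : ℕ} {i i' j j' : Fin n} (hi : i ≠ i') (hj : j ≠ j') :
    (univ.filter (fun σ : Perm (Fin n) => σ i = j ∧ σ i' = j')).card = (n - 2).factorial := by
  have inj : ∀ a b : Fin n, a ≠ b → Function.Injective ![a, b] := by
    intro a b hab u v huv
    fin_cases u <;> fin_cases v <;> simp_all
  have h := card_pres n 2 ![i, i'] ![j, j'] (inj _ _ hi) (inj _ _ hj)
  rw [← h]
  congr 1
  ext σ
  simp [Fin.forall_fin_two]

lemma card_three {n : ℕ} {i i' i'' j j' j'' : Fin n} (hi : i ≠ i') (hi2 : i ≠ i'') (hi3 : i' ≠ i'')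
    (hj : j ≠ j') (hj2 : j ≠ j'') (hj3 : j' ≠ j'') :
    (univ.filter (fun σ : Perm (Fin n) => σ i = j ∧ σ i' = j' ∧ σ i'' = j'')).card =
      (n - 3).factorial := by
  have inj : ∀ a b c : Fin n, a ≠ b → a ≠ c → b ≠ c → Function.Injective ![a, b, c] := by
    intro a b c hab hac hbc u v huv
    fin_cases u <;> fin_cases v <;> simp_all
  have h := card_pres n 3 ![i, i', i''] ![j, j', j''] (inj _ _ _ hi hi2 hi3)
    (inj _ _ _ hj hj2 hj3)
  rw [← h]
  congr 1
  ext σ
  simp [Fin.forall_fin_succ]

/-- The union of the cosets `{σ : σ i = j}`, `(i,j) ∈ P`. -/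
def U {n : ℕ} (P : Finset (Fin n × Fin n)) : Finset (Perm (Fin n)) :=
  univ.filter (fun σ => ∃ p ∈ P, σ p.1 = p.2)

lemma mem_U {n : ℕ} {P : Finset (Fin n × Fin n)} {σ : Perm (Fin n)} :
    σ ∈ U P ↔ ∃ p ∈ P, σ p.1 = p.2 := by
  simp [U]

/-- `T a = {σ : σ a = a}`. -/
def T {n : ℕ} (a : Fin n) : Finset (Perm (Fin n)) := univ.filter (fun σ => σ a = a)

lemma mem_T {n : ℕ} {a : Fin n} {σ : Perm (Fin n)} : σ ∈ T a ↔ σ a = a := by simp [T]

/-- Bonferroni: a union of `k` cosets of cells outside row and column `a` covers at least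
`k (n-2)! - k² (n-3)!` elements of the stabiliser of `a`. -/
lemma union_lower {t : ℕ} (a : Fin (t + 3)) (Q : Finset (Fin (t + 3) × Fin (t + 3)))
    (hQ : ∀ p ∈ Q, p.1 ≠ a ∧ p.2 ≠ a) :
    Q.card * (t + 1).factorial ≤ (T a ∩ U Q).card + Q.card ^ 2 * t.factorial := by
  classical
  induction Q using Finset.induction_on with
  | empty => simp
  | insert q Q hq ih =>
    have ih' := ih (fun p hp => hQ p (mem_insert_of_mem hp))
    have hqa := hQ q (mem_insert_self _ _)
    have hU : T a ∩ U (insert q Q) = (T a ∩ U Q) ∪ (T a ∩ U {q}) := by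
      ext σ
      simp only [mem_inter, mem_U, mem_union, mem_insert, mem_singleton]
      constructor
      · rintro ⟨h1, p, rfl | hp, h2⟩
        · exact Or.inr ⟨h1, p, rfl, h2⟩
        · exact Or.inl ⟨h1, p, hp, h2⟩
      · rintro (⟨h1, p, hp, h2⟩ | ⟨h1, p, rfl, h2⟩)
        · exact ⟨h1, p, Or.inr hp, h2⟩
        · exact ⟨h1, p, Or.inl rfl, h2⟩
    have h1 : (T a ∩ U {q}).card = (t + 1).factorial := by
      have := card_two (n := t + 3) (i := a) (i' := q.1) (j := a) (j' := q.2) hqa.1.symm hqa.2.symm
      rw [show t + 3 - 2 = t + 1 by omega] at this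
      rw [← this]
      congr 1
      ext σ
      simp [mem_T, mem_U]
    have h2 : ((T a ∩ U Q) ∩ (T a ∩ U {q})).card ≤ Q.card * t.factorial := by
      have hsub : (T a ∩ U Q) ∩ (T a ∩ U {q}) ⊆ Q.biUnion (fun p =>
          univ.filter (fun σ : Perm (Fin (t + 3)) => σ a = a ∧ σ q.1 = q.2 ∧ σ p.1 = p.2)) := by
        intro σ hσ
        simp only [mem_inter, mem_U, mem_T, mem_singleton, mem_biUnion, mem_filter, mem_univ,
          true_and] at hσ ⊢
        obtain ⟨⟨h4, p, hp, h5⟩, ⟨_, p', hp', h6⟩⟩ := hσ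
        rw [hp'] at h6
        exact ⟨p, hp, h4, h6, h5⟩
      refine (card_le_card hsub).trans ?_
      refine card_biUnion_le_card_mul _ _ _ ?_
      intro p hp
      have hpq : p ≠ q := fun h => hq (h ▸ hp)
      have hpa := hQ p (mem_insert_of_mem hp)
      by_cases h1 : q.1 = p.1
      · have h2 : q.2 ≠ p.2 := fun h => hpq (Prod.ext h1.symm h.symm)
        rw [filter_eq_empty_iff.mpr, card_empty]
        · exact Nat.zero_le _
        · rintro σ - ⟨-, h3, h4⟩
          rw [h1] at h3
          exact h2 (h3.symm.trans h4)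
      · by_cases h2 : q.2 = p.2
        · rw [filter_eq_empty_iff.mpr, card_empty]
          · exact Nat.zero_le _
          · rintro σ - ⟨-, h3, h4⟩
            exact h1 (σ.injective (h3.trans (h2.trans h4.symm)))
        · have := card_three (n := t + 3) (i := a) (i' := q.1) (i'' := p.1) (j := a) (j' := q.2)
            (j'' := p.2) hqa.1.symm hpa.1.symm h1 hqa.2.symm hpa.2.symm h2
          rw [this]
          simp
    have h3 := card_union_add_card_inter (T a ∩ U Q) (T a ∩ U {q})
    rw [hU, card_insert_of_notMem hq]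
    nlinarith [ih', h1, h2, h3, t.factorial_pos]

end Pool.Agent.Q250.SnStab
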