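import Mathlib
import Pool.Agent.Q250.SnStab.Basic

set_option autoImplicit false

/-!
# The complement of two crossing cosets is far from every union of `n - 2` cosets

`B = {σ : σ 0 = 0} ∪ {σ : σ 1 = 1} ∪ {σ : σ 0 = 1, σ 1 = 0}` has `2 (n-1)!` elements.  Its
complement `A` is far from every union of `n - 2` cosets.
-/

namespace Pool.Agent.Q250.SnStab

open Finset Equiv

/-- The set `B`. -/
def B (t : ℕ) : Finset (Perm (Fin (t + 3))) :=
  univ.filter (fun σ => σ 0 = 0 ∨ σ 1 = 1 ∨ (σ 0 = 1 ∧ σ 1 = 0))

lemma mem_B {t : ℕ} {σ : Perm (Fin (t + 3))} :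
    σ ∈ B t ↔ σ 0 = 0 ∨ σ 1 = 1 ∨ (σ 0 = 1 ∧ σ 1 = 0) := by simp [B]

/-- The set `A`, the complement of `B`. -/
def A (t : ℕ) : Finset (Perm (Fin (t + 3))) := (B t)ᶜ

lemma mem_A {t : ℕ} {σ : Perm (Fin (t + 3))} :
    σ ∈ A t ↔ ¬ (σ 0 = 0 ∨ σ 1 = 1 ∨ (σ 0 = 1 ∧ σ 1 = 0)) := by simp [A, B]

lemma zero_ne_one' {t : ℕ} : (0 : Fin (t + 3)) ≠ 1 := by
  intro h
  have := congrArg Fin.val h
  simp at this

/-- `R = {σ : σ 0 = 1, σ 1 = 0}`. -/
def R (t : ℕ) : Finset (Perm (Fin (t + 3))) := univ.filter (fun σ => σ 0 = 1 ∧ σ 1 = 0)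

lemma card_R (t : ℕ) : (R t).card = (t + 1).factorial := by
  have := card_two (n := t + 3) (i := 0) (i' := 1) (j := 1) (j' := 0) zero_ne_one' zero_ne_one'.symm
  rw [show t + 3 - 2 = t + 1 by omega] at this
  exact this

lemma card_T (t : ℕ) (a : Fin (t + 3)) : (T a).card = (t + 2).factorial := by
  have := card_one (n := t + 3) a a
  rw [show t + 3 - 1 = t + 2 by omega] at this
  exact this

lemma card_TT (t : ℕ) : (T 0 ∩ T (1 : Fin (t + 3))).card = (t + 1).factorial := by
  have := card_two (n := t + 3) (i := 0) (i' := 1) (j := 0) (j' := 1) zero_ne_one' zero_ne_one'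
  rw [show t + 3 - 2 = t + 1 by omega] at this
  rw [← this]
  congr 1
  ext σ
  simp [mem_T]

lemma B_eq (t : ℕ) : B t = (T 0 ∪ T 1) ∪ R t := by
  ext σ
  simp [mem_B, mem_T, R]

lemma disj_R (t : ℕ) : Disjoint (T 0 ∪ T (1 : Fin (t + 3))) (R t) := by
  rw [Finset.disjoint_left]
  intro σ h1 h2
  simp only [mem_union, mem_T, R, mem_filter, mem_univ, true_and] at h1 h2
  rcases h1 with h1 | h1
  · exact zero_ne_one' (h1.symm.trans h2.1)
  · exact zero_ne_one' (h2.2.symm.trans h1)

lemma card_B (t : ℕ) : (B t).card = 2 * (t + 2).factorial := by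
  rw [B_eq, card_union_of_disjoint (disj_R t), card_R]
  have h := card_union_add_card_inter (T 0) (T (1 : Fin (t + 3)))
  rw [card_TT, card_T, card_T] at h
  omega

lemma card_A (t : ℕ) : (A t).card = (t + 1) * (t + 2).factorial := by
  rw [A, card_compl, Fintype.card_perm, Fintype.card_fin, card_B,
    show t + 3 = (t + 2) + 1 by ring, Nat.factorial_succ (t + 2),
    show (t + 2 + 1) * (t + 2).factorial = (t + 1) * (t + 2).factorial + 2 * (t + 2).factorial by
      ring]
  omega

/-- The distance of `A` to every union of `n - 2` cosets is at least `(K - 1) (n-2)!` as soon as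
`n` is large. -/
lemma far (t K : ℕ) (hK : 1 ≤ K) (ht : K ^ 2 ≤ t + 1) (ht2 : 2 * K ≤ t)
    (P : Finset (Fin (t + 3) × Fin (t + 3))) (hP : P.card = t + 1) :
    (K - 1) * (t + 1).factorial ≤ (symmDiff (A t) (U P)).card := by
  classical
  -- the main estimate at a point `a`
  have key : ∀ a : Fin (t + 3), (a = 0 ∨ a = 1) →
      K ≤ (P.filter (fun p => p.1 ≠ a ∧ p.2 ≠ a)).card →
      (K - 1) * (t + 1).factorial ≤ (symmDiff (A t) (U P)).card := by
    intro a ha h
    obtain ⟨Q, hQsub, hQ⟩ := exists_subset_card_eq h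
    have h1 := union_lower a Q (fun p hp => (mem_filter.1 (hQsub hp)).2)
    rw [hQ] at h1
    have h2 : (T a ∩ U Q).card ≤ (symmDiff (A t) (U P)).card := by
      apply card_le_card
      intro σ hσ
      rw [mem_inter, mem_T, mem_U] at hσ
      obtain ⟨h3, p, hp, h4⟩ := hσ
      rw [mem_symmDiff]
      right
      refine ⟨mem_U.2 ⟨p, (mem_filter.1 (hQsub hp)).1, h4⟩, ?_⟩
      rw [mem_A, not_not]
      rcases ha with rfl | rfl
      · exact Or.inl h3
      · exact Or.inr (Or.inl h3)
    have h5 : K ^ 2 * t.factorial ≤ (t + 1).factorial := by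
      rw [Nat.factorial_succ]
      exact Nat.mul_le_mul_right _ ht
    have h6 : (K - 1) * (t + 1).factorial + (t + 1).factorial = K * (t + 1).factorial := by
      obtain ⟨k, rfl⟩ : ∃ k, K = k + 1 := ⟨K - 1, by omega⟩
      simp only [Nat.add_sub_cancel]
      ring
    omega
  -- one of the two points has many cells
  by_contra hcon
  have h0 : (P.filter (fun p => p.1 ≠ 0 ∧ p.2 ≠ 0)).card < K := by
    by_contra h
    exact hcon (key 0 (Or.inl rfl) (not_lt.1 h))
  have h1 : (P.filter (fun p => p.1 ≠ 1 ∧ p.2 ≠ 1)).card < K := by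
    by_contra h
    exact hcon (key 1 (Or.inr rfl) (not_lt.1 h))
  have hsub : P ⊆ (P.filter (fun p => p.1 ≠ 0 ∧ p.2 ≠ 0)) ∪
      (P.filter (fun p => p.1 ≠ 1 ∧ p.2 ≠ 1)) ∪ {(0, 1), (1, 0)} := by
    intro p hp
    simp only [mem_union, mem_filter, mem_insert, mem_singleton, hp, true_and]
    obtain ⟨i, j⟩ := p
    simp only [Prod.mk.injEq]
    have h01 : (0 : Fin (t + 3)) ≠ 1 := zero_ne_one'
    by_cases hi0 : i = 0
    · subst hi0
      by_cases hj1 : j = 1
      · exact Or.inr (Or.inl ⟨rfl, hj1⟩)
      · exact Or.inl (Or.inr ⟨h01, hj1⟩)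
    · by_cases hj0 : j = 0
      · subst hj0
        by_cases hi1 : i = 1
        · exact Or.inr (Or.inr ⟨hi1, rfl⟩)
        · exact Or.inl (Or.inr ⟨hi1, h01⟩)
      · exact Or.inl (Or.inl ⟨hi0, hj0⟩)
  have h2 := card_le_card hsub
  have h3 := card_union_le ((P.filter (fun p => p.1 ≠ 0 ∧ p.2 ≠ 0)) ∪
      (P.filter (fun p => p.1 ≠ 1 ∧ p.2 ≠ 1))) {(0, 1), (1, 0)}
  have h4 := card_union_le (P.filter (fun p => p.1 ≠ 0 ∧ p.2 ≠ 0))
      (P.filter (fun p => p.1 ≠ 1 ∧ p.2 ≠ 1))
  have h5 : ({(0, 1), (1, 0)} : Finset (Fin (t + 3) × Fin (t + 3))).card ≤ 2 := card_le_two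
  omega

/-- Upper bound for the number of pairs `(σ, i < j)` with `σ ∈ A`, `σ (i j) ∉ A`. -/
lemma boundary (t : ℕ) :
    (((A t ×ˢ (univ.filter (fun p : Fin (t + 3) × Fin (t + 3) => p.1 < p.2))).filter
      (fun x => x.1 * Equiv.swap x.2.1 x.2.2 ∉ A t)).card : ℕ) ≤
      2 * (t + 1) * (t + 3) * (t + 1).factorial := by
  classical
  have h01 : (0 : Fin (t + 3)) ≠ 1 := zero_ne_one'
  set S := ((A t ×ˢ (univ.filter (fun p : Fin (t + 3) × Fin (t + 3) => p.1 < p.2))).filter
      (fun x => x.1 * Equiv.swap x.2.1 x.2.2 ∉ A t)) with hS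
  -- the three groups of boundary edges, seen from `B`
  set D0 : Finset (Fin (t + 3) × Fin (t + 3)) := ({0} : Finset _) ×ˢ (univ.erase 0) with hD0
  set D1 : Finset (Fin (t + 3) × Fin (t + 3)) :=
    insert (0, 1) (({1} : Finset _) ×ˢ ((univ.erase 0).erase 1)) with hD1
  set D2 : Finset (Fin (t + 3) × Fin (t + 3)) :=
    (({0, 1} : Finset _) ×ˢ ((univ.erase 0).erase 1)) with hD2
  have hmap : S.card ≤ (((T 0 \ T 1) ×ˢ D0) ∪ ((T 1 \ T 0) ×ˢ D1) ∪ (R t ×ˢ D2)).card := by
    apply card_le_card_of_injOn (fun x => (x.1 * Equiv.swap x.2.1 x.2.2, x.2))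
    · rintro ⟨σ, i, j⟩ hx
      rw [hS] at hx
      simp only [coe_filter, mem_product, mem_filter, mem_univ, true_and, Set.mem_ofPred_eq,
        mem_A, not_not] at hx
      obtain ⟨⟨hA, hij⟩, hB⟩ := hx
      set τ : Perm (Fin (t + 3)) := σ * Equiv.swap i j with hτ
      have hσ : σ = τ * Equiv.swap i j := by
        rw [hτ, mul_assoc, Equiv.swap_mul_self, mul_one]
      have hij' : i ≠ j := ne_of_lt hij
      have hj0 : j ≠ 0 := by
        intro h
        rw [h] at hij
        exact absurd hij (Fin.not_lt_zero i)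
      -- values of `σ`
      have hval : ∀ a, a ≠ i → a ≠ j → σ a = τ a := by
        intro a h1 h2
        rw [hσ, Perm.mul_apply, Equiv.swap_apply_of_ne_of_ne h1 h2]
      have hvi : σ i = τ j := by rw [hσ, Perm.mul_apply, Equiv.swap_apply_left]
      have hvj : σ j = τ i := by rw [hσ, Perm.mul_apply, Equiv.swap_apply_right]
      simp only [coe_union, Set.mem_union, mem_coe, mem_product, mem_sdiff, mem_T]
      -- `i = 1` or `i = 0` or nothing moves
      have hcase : i = 0 ∨ i = 1 ∨ j = 1 := by
        by_contra hc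
        push Not at hc
        obtain ⟨h1, h2, h3⟩ := hc
        apply hA
        rw [hval 0 (Ne.symm h1) (Ne.symm hj0), hval 1 (Ne.symm h2) (Ne.symm h3)]
        exact hB
      have hj1 : j = 1 → i = 0 := by
        intro h
        rw [h] at hij
        have h2 : (i : ℕ) < ((1 : Fin (t + 3)) : ℕ) := hij
        have h3 : ((1 : Fin (t + 3)) : ℕ) = 1 := Fin.val_one (t + 1)
        rw [h3] at h2
        ext
        rw [Fin.val_zero]
        omega
      have hcase' : i = 0 ∨ i = 1 := by
        rcases hcase with h | h | h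
        · exact Or.inl h
        · exact Or.inr h
        · exact Or.inl (hj1 h)
      by_cases hτ0 : τ 0 = 0
      · by_cases hτ1 : τ 1 = 1
        · -- impossible
          exfalso
          apply hA
          rcases hcase' with rfl | rfl
          · by_cases hj : j = 1
            · subst hj
              right; right
              rw [hvi, hvj]
              exact ⟨hτ1, hτ0⟩
            · right; left
              rw [hval 1 h01.symm (Ne.symm hj)]
              exact hτ1
          · left
            rw [hval 0 h01 (Ne.symm hj0)]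
            exact hτ0
        · -- `τ ∈ T 0 \ T 1`
          have hi : i = 0 := by
            rcases hcase' with h | h
            · exact h
            · exfalso
              apply hA
              left
              rw [hval 0 (by rw [h]; exact h01) (Ne.symm hj0)]
              exact hτ0
          left; left
          refine ⟨⟨hτ0, hτ1⟩, ?_⟩
          rw [hD0]
          simp [hi, hj0]
      · by_cases hτ1 : τ 1 = 1
        · -- `τ ∈ T 1 \ T 0`
          left; right
          refine ⟨⟨hτ1, hτ0⟩, ?_⟩
          rw [hD1]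
          rcases hcase' with h | h
          · by_cases hj : j = 1
            · simp [h, hj]
            · exfalso
              apply hA
              right; left
              rw [hval 1 (by rw [h]; exact h01.symm) (Ne.symm hj)]
              exact hτ1
          · have hj : j ≠ 1 := by
              intro hj
              exact hij' (h.trans hj.symm)
            simp [h, hj, hj0]
        · -- `τ ∈ R`
          have hR : τ 0 = 1 ∧ τ 1 = 0 := by
            rcases hB with h | h | h
            · exact absurd h hτ0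
            · exact absurd h hτ1
            · exact h
          right
          refine ⟨mem_filter.2 ⟨mem_univ _, hR⟩, ?_⟩
          rw [hD2]
          have hj : j ≠ 1 := by
            intro hj
            have hi := hj1 hj
            subst hi
            subst hj
            apply hA
            left
            rw [hvi]
            exact hR.2
          rcases hcase' with h | h
          · simp [h, hj, hj0]
          · simp [h, hj, hj0]
    · rintro ⟨σ, i, j⟩ _ ⟨σ', i', j'⟩ _ h
      simp only [Prod.mk.injEq] at h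
      obtain ⟨h1, rfl, rfl⟩ := h
      rw [mul_left_inj] at h1
      rw [h1]
  have hTd : ∀ a b : Fin (t + 3), (T a ∩ T b).card = (t + 1).factorial →
      (T a \ T b).card = (t + 2).factorial - (t + 1).factorial := by
    intro a b h
    have := card_sdiff_add_card_inter (T a) (T b)
    rw [h, card_T] at this
    omega
  have c0 : (T 0 \ T (1 : Fin (t + 3))).card = (t + 2).factorial - (t + 1).factorial :=
    hTd 0 1 (card_TT t)
  have c1 : (T 1 \ T (0 : Fin (t + 3))).card = (t + 2).factorial - (t + 1).factorial :=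
    hTd 1 0 (by rw [inter_comm]; exact card_TT t)
  have e0 : D0.card = t + 2 := by
    rw [hD0, card_product, card_singleton, card_erase_of_mem (mem_univ _), card_univ,
      Fintype.card_fin]
    omega
  have e' : ((univ.erase (0 : Fin (t + 3))).erase 1).card = t + 1 := by
    rw [card_erase_of_mem (mem_erase.2 ⟨h01.symm, mem_univ _⟩), card_erase_of_mem (mem_univ _),
      card_univ, Fintype.card_fin]
    omega
  have e1 : D1.card ≤ t + 2 := by
    rw [hD1]
    refine (card_insert_le _ _).trans ?_
    rw [card_product, card_singleton, e']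
    omega
  have e2 : D2.card = 2 * (t + 1) := by
    rw [hD2, card_product, e', card_pair h01]
  have hfac : (t + 2).factorial - (t + 1).factorial = (t + 1) * (t + 1).factorial := by
    rw [Nat.factorial_succ (t + 1), show (t + 1 + 1) * (t + 1).factorial =
      (t + 1) * (t + 1).factorial + (t + 1).factorial by ring]
    omega
  calc S.card ≤ _ := hmap
    _ ≤ (((T 0 \ T (1 : Fin (t + 3))) ×ˢ D0) ∪ ((T 1 \ T 0) ×ˢ D1)).card + (R t ×ˢ D2).card :=
        card_union_le _ _
    _ ≤ (((T 0 \ T (1 : Fin (t + 3))) ×ˢ D0).card + ((T 1 \ T 0) ×ˢ D1).card) +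
        (R t ×ˢ D2).card := by
        gcongr
        exact card_union_le _ _
    _ = ((t + 1) * (t + 1).factorial * (t + 2) + (t + 1) * (t + 1).factorial * D1.card) +
        (t + 1).factorial * (2 * (t + 1)) := by
        rw [card_product (T 0 \ T 1) D0, card_product (T 1 \ T 0) D1, card_product (R t) D2, c0, c1,
          e0, e2, card_R, hfac]
    _ ≤ ((t + 1) * (t + 1).factorial * (t + 2) + (t + 1) * (t + 1).factorial * (t + 2)) +
        (t + 1).factorial * (2 * (t + 1)) := by
        gcongr
    _ = 2 * (t + 1) * (t + 3) * (t + 1).factorial := by ring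

end Pool.Agent.Q250.SnStab
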